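import Pool.Agent.H38.Ldc.Red

/-!
Deciding the locating-dominating coalition number is NP-hard on connected graphs, already for the
fixed bound 10.
-/

namespace Pool.Agent.Results.MP_722fe9_lc.Hard

open Pool.Agent.H38.NP Pool.Agent.H38.Ldc

theorem result :
    NPHardOn (fun p : ℕ × List (ℕ × ℕ) => (graphOf p.1 p.2).Connected)
      fun p => CLge (graphOf p.1 p.2) 10 :=
  hard10

end Pool.Agent.Results.MP_722fe9_lc.Hard
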